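import Pool.Agent.helper5.EY.St
import Pool.Agent.helper35.EY.FinL
import Pool.Agent.helper40.EY.Chart

set_option autoImplicit false
set_option linter.unusedSectionVars false

/-!
# EY-IDef: the E-step, definitions

`I(P)` = sum of the multiplicities of the eigenscheme of `P` at its singular points (points with `∇P = 0`).
All coordinates here are orthonormal, the index type is arbitrary.
-/

namespace EY

open MvPolynomial

section

variable {κ : Type} [Fintype κ]

/-- the ideal of the eigenscheme of `f` in the chart `∑ l_i x_i = 1` (orthonormal coordinates, any index type) -/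
noncomputable def chI (f : MvPolynomial κ ℂ) (l : κ → ℂ) : Ideal (MvPolynomial κ ℂ) :=
  Ideal.span {g | ∃ i j, g = X i * pderiv j f - X j * pderiv i f} ⊔ Ideal.span {∑ i, C (l i) * X i - 1}

/-- `v` is zero or an eigenvector -/
def IsEV (f : MvPolynomial κ ℂ) (v : κ → ℂ) : Prop :=
  ∀ i j, v i * eval v (pderiv j f) = v j * eval v (pderiv i f)

/-- `v` is zero or a singular vector -/
def IsSing {κ : Type} (f : MvPolynomial κ ℂ) (v : κ → ℂ) : Prop := ∀ i, eval v (pderiv i f) = 0

/-- there is a form of degree `q + 1` with finite eigenscheme and `I(P) = M` -/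
def IK (q : ℕ) (κ : Type) [Fintype κ] (M : ℕ) : Prop :=
  ∃ P : MvPolynomial κ ℂ, P.IsHomogeneous (q + 1) ∧ FinLines (IsEV P) ∧
    ∃ (l : κ → ℂ) (S : Finset (κ → ℂ)), (∀ s ∈ S, ∑ i, l i * s i = 1 ∧ IsSing P s) ∧
      (∀ v, v ≠ 0 → IsSing P v → ∃ s ∈ S, ∃ c : ℂ, v = c • s) ∧ ∑ s ∈ S, mulAt (chI P l) s = M

end

/-- normal form: `b = x_none`, `P` nonsingular on `b = 0`, chart `b = 1`; `(1, z)`, `z ∈ S`, are the singular points -/
structure IQD (q : ℕ) (τ : Type) [Fintype τ] [DecidableEq τ] (P : MvPolynomial (Option τ) ℂ)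
    (S : Finset (τ → ℂ)) (M : ℕ) : Prop where
  hom : P.IsHomogeneous (q + 1)
  fin : FinLines (IsEV P)
  ns : ∀ v : Option τ → ℂ, v none = 0 → (∀ i, eval v (pderiv (some i) P) = 0) → v = 0
  sing : ∀ z : τ → ℂ, z ∈ S ↔ IsSing P (fun o : Option τ => o.elim 1 z)
  sum : ∑ z ∈ S, mulAt (affIdeal P (1 : Matrix (Option τ) (Option τ) ℂ) none) z = M

/-- there is a form in normal form with `I(P) = M` -/
def IQ (q : ℕ) (τ : Type) [Fintype τ] [DecidableEq τ] (M : ℕ) : Prop :=
  ∃ (P : MvPolynomial (Option τ) ℂ) (S : Finset (τ → ℂ)), IQD q τ P S M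

/-! ### the E-form -/

/-- the E-form `P(x) + t w b^q + w^(q+1)` in the variables `u = none`, `w = some none`, `x_o = some (some o)`,
`o : Option τ`, `b = x_none`; the metric is `gram (Option τ)` -/
noncomputable def eform {τ : Type} (q : ℕ) (t : ℂ) (P : MvPolynomial (Option τ) ℂ) :
    MvPolynomial (Option (Option (Option τ))) ℂ :=
  rename (fun o => some (some o)) P + C t * (X (some none) * X (some (some none)) ^ q) + X (some none) ^ (q + 1)

/-! ### the Y-form -/

/-- the cofactor `Q` of the Y-form, variables `y = none`, `b = some none` -/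
noncomputable def yQ {τ : Type} (q X' : ℕ) (a : ℂ) : MvPolynomial (Option (Option τ)) ℂ :=
  if X' = q - 1 then C (a / 2) * X (some none) ^ (q - 1)
  else C (a / 2) * X (some none) ^ (q - 1) - C (a / ((q : ℂ) + 1 - X')) * (X (some none) ^ X' * X none ^ (q - 1 - X'))

/-- the Y-form `P(x) + y² Q`, variables `y = none`, `x_o = some o`, `o : Option τ`, `b = x_none` -/
noncomputable def yform {τ : Type} (q X' : ℕ) (a : ℂ) (P : MvPolynomial (Option τ) ℂ) :
    MvPolynomial (Option (Option τ)) ℂ :=
  rename some P + X none ^ 2 * yQ q X' a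

end EY
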