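import Pool.Agent.helper81.EY.IChg
import Pool.Agent.helper40.EY.Glob

set_option autoImplicit false
set_option linter.unusedSectionVars false

/-!
# EY-IEq: renaming of the variables, charts, base of the induction
-/

namespace EY

open MvPolynomial

/-- chart independence -/
theorem chI_indep {κ : Type} [Fintype κ] {d : ℕ} {f : MvPolynomial κ ℂ} (hf : f.IsHomogeneous d)
    (l l' v : κ → ℂ) (h1 : ∑ i, l i * v i = 1) (h2 : ∑ i, l' i * v i = 1) :
    mulAt (chI f l) v = mulAt (chI f l') v := by
  have hl : ∀ l : κ → ℂ, (∑ i, C (l i) * X i : MvPolynomial κ ℂ).IsHomogeneous 1 := fun l =>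
    IsHomogeneous.sum _ _ _ fun i _ => isHomogeneous_C_mul_X _ _
  have hev : ∀ l : κ → ℂ, eval v (∑ i, C (l i) * X i) = ∑ i, l i * v i := by
    intro l
    simp
  have h := mulAt_chart_indep {g | ∃ i j, g = X i * pderiv j f - X j * pderiv i f} (by
    rintro g ⟨i, j, rfl⟩
    exact ⟨1 + (d - 1), ((isHomogeneous_X _ i).mul (hf.pderiv)).sub
      ((isHomogeneous_X _ j).mul (hf.pderiv))⟩) (hl l) (hl l') (v := v) (by rw [hev, h1])
    (by rw [hev, h2]; exact one_ne_zero)
  unfold chI
  rw [h]
  congr 1
  funext i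
  rw [hev, h2, div_one]

theorem sl_one81 {κ : Type} [Fintype κ] [DecidableEq κ] (j : κ) : sl (1 : Matrix κ κ ℂ) j = X j := by
  unfold sl
  rw [Finset.sum_eq_single j]
  · rw [Matrix.one_apply_eq, C_1, one_mul]
  · intro k _ hk
    rw [Matrix.one_apply_ne (Ne.symm hk), C_0, zero_mul]
  · intro h
    exact absurd (Finset.mem_univ j) h

section bridge

variable {κ' : Type} [Fintype κ'] [DecidableEq κ']

theorem rename_dehom (g : MvPolynomial (Option κ') ℂ) :
    rename some (dehom g) - g ∈ Ideal.span {(X none - 1 : MvPolynomial (Option κ') ℂ)} := by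
  rw [← Ideal.Quotient.eq]
  set J := Ideal.span {(X none - 1 : MvPolynomial (Option κ') ℂ)}
  have h : ((Ideal.Quotient.mkₐ ℂ J).comp ((rename some).comp (dehom (κ' := κ')))) =
      Ideal.Quotient.mkₐ ℂ J := by
    apply MvPolynomial.algHom_ext
    intro i
    cases i with
    | none =>
      simp only [AlgHom.comp_apply, dehom_X_none, map_one]
      change (1 : _ ⧸ J) = Ideal.Quotient.mk J (X none)
      rw [← map_one (Ideal.Quotient.mk J), Ideal.Quotient.eq, ← neg_sub]
      exact J.neg_mem (Ideal.subset_span rfl)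
    | some k =>
      simp only [AlgHom.comp_apply, dehom_X_some, rename_X]
  exact AlgHom.congr_fun h g

theorem chI_single (f : MvPolynomial (Option κ') ℂ) :
    chI f (Pi.single none 1) = Ideal.span {g | ∃ i j, g = X i * pderiv j f - X j * pderiv i f} ⊔
      Ideal.span {X none - 1} := by
  unfold chI
  congr 3
  rw [Fintype.sum_option]
  simp

theorem dehom_mem_iff (f : MvPolynomial (Option κ') ℂ) (x : MvPolynomial (Option κ') ℂ) :
    dehom x ∈ affIdeal f (1 : Matrix (Option κ') (Option κ') ℂ) none ↔ x ∈ chI f (Pi.single none 1) := by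
  rw [chI_single]
  constructor
  · intro hx
    have h1 : ∀ g ∈ affIdeal f (1 : Matrix (Option κ') (Option κ') ℂ) none, rename some g ∈
        Ideal.span {g | ∃ i j, g = X i * pderiv j f - X j * pderiv i f} ⊔
      Ideal.span {(X none - 1 : MvPolynomial (Option κ') ℂ)} := by
      intro g hg
      unfold affIdeal at hg
      induction hg using Submodule.span_induction with
      | mem y hy =>
        obtain ⟨j, rfl⟩ := hy
        simp only []
        have h2 := rename_dehom (pderiv j f - sl (1 : Matrix (Option κ') (Option κ') ℂ) j * pderiv none f)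
        have h3 : rename some (dehom (pderiv j f - sl (1 : Matrix (Option κ') (Option κ') ℂ) j * pderiv none f)) =
            (rename some (dehom (pderiv j f - sl (1 : Matrix (Option κ') (Option κ') ℂ) j * pderiv none f)) -
              (pderiv j f - sl (1 : Matrix (Option κ') (Option κ') ℂ) j * pderiv none f)) +
            ((X none * pderiv j f - X j * pderiv none f) - (X none - 1) * pderiv j f) := by
          rw [sl_one81]; ring
        rw [h3]
        refine Ideal.add_mem _ (Ideal.mem_sup_right h2) (Ideal.sub_mem _ (Ideal.mem_sup_left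
          (Ideal.subset_span ⟨none, j, rfl⟩)) (Ideal.mem_sup_right (Ideal.mul_mem_right _ _ (Ideal.subset_span rfl))))
      | zero => rw [map_zero]; exact Ideal.zero_mem _
      | add x y _ _ hx hy => rw [map_add]; exact Ideal.add_mem _ hx hy
      | smul c x _ hx => rw [smul_eq_mul, map_mul]; exact Ideal.mul_mem_left _ _ hx
    have h2 := h1 _ hx
    have h3 : x = rename some (dehom x) - (rename some (dehom x) - x) := by ring
    rw [h3]
    exact Ideal.sub_mem _ h2 (Ideal.mem_sup_right (rename_dehom x))
  · intro hx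
    obtain ⟨y, hy, z, hz, rfl⟩ := Submodule.mem_sup.mp hx
    clear hx
    rw [map_add]
    refine Ideal.add_mem _ ?_ ?_
    · induction hy using Submodule.span_induction with
      | mem g hg =>
        obtain ⟨i, j, rfl⟩ := hg
        have h1 := dehom_minor (S := (1 : Matrix (Option κ') (Option κ') ℂ)) f none i j
        rwa [sl_one81, sl_one81] at h1
      | zero => simp
      | add u v _ _ hu hv =>
        rw [map_add]
        exact Ideal.add_mem _ hu hv
      | smul c u _ hu =>
        rw [smul_eq_mul, map_mul]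
        exact Ideal.mul_mem_left _ _ hu
    · obtain ⟨c, rfl⟩ := Ideal.mem_span_singleton'.mp hz
      rw [map_mul, map_sub, map_one, dehom_X_none, sub_self, mul_zero]
      exact Ideal.zero_mem _

theorem mulAt_chI_single (f : MvPolynomial (Option κ') ℂ) (p : κ' → ℂ)
    (hp : ∀ g ∈ affIdeal f (1 : Matrix (Option κ') (Option κ') ℂ) none, eval p g = 0) :
    mulAt (chI f (Pi.single none 1)) (fun o : Option κ' => o.elim 1 p) =
      mulAt (affIdeal f (1 : Matrix (Option κ') (Option κ') ℂ) none) p := by
  refine mulAt_congr _ _ _ p dehom ?_ ?_ ?_ hp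
  · intro y
    refine ⟨rename some y, ?_⟩
    have h1 : dehom (rename some y) = y := by
      have h2 : (dehom.comp (rename some)) = AlgHom.id ℂ (MvPolynomial κ' ℂ) := by
        apply MvPolynomial.algHom_ext
        intro k
        simp only [AlgHom.comp_apply, AlgHom.id_apply, rename_X, dehom_X_some]
      exact AlgHom.congr_fun h2 y
    rw [h1, sub_self]
    exact Ideal.zero_mem _
  · intro x
    exact dehom_mem_iff f x
  · intro x
    rw [eval_dehom]

end bridge

theorem chI_eval_zero {κ : Type} [Fintype κ] (P : MvPolynomial κ ℂ) (l s : κ → ℂ)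
    (hl : ∑ i, l i * s i = 1) (hs : IsSing P s) : ∀ y ∈ chI P l, eval s y = 0 := by
  intro x hx
  obtain ⟨y, hy, z, hz, rfl⟩ := Submodule.mem_sup.mp hx
  clear hx
  rw [map_add]
  have h1 : eval s y = 0 := by
    induction hy using Submodule.span_induction with
    | mem g hg =>
      obtain ⟨i, j, rfl⟩ := hg
      rw [map_sub, map_mul, map_mul, hs i, hs j, mul_zero, mul_zero, sub_zero]
    | zero => simp
    | add u v _ _ hu hv => rw [map_add, hu, hv, add_zero]
    | smul c u _ hu => rw [smul_eq_mul, map_mul, hu, mul_zero]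
  have h2 : eval s z = 0 := by
    obtain ⟨c, rfl⟩ := Ideal.mem_span_singleton'.mp hz
    rw [map_mul, map_sub, map_one, map_sum]
    simp only [map_mul, eval_C, eval_X]
    rw [hl, sub_self, mul_zero]
  rw [h1, h2, add_zero]

section equiv

variable {κ κ' : Type} [Fintype κ] [Fintype κ']

theorem isSing_rename (e : κ ≃ κ') (P : MvPolynomial κ ℂ) (v : κ' → ℂ) :
    IsSing (rename e P) v ↔ IsSing P (fun i => v (e i)) := by
  have h1 : ∀ i, eval v (pderiv (e i) (rename e P)) = eval (fun i => v (e i)) (pderiv i P) := by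
    intro i
    rw [pderiv_rename e.injective, eval_rename]
    rfl
  constructor
  · intro h i
    rw [← h1]
    exact h _
  · intro h j
    obtain ⟨i, rfl⟩ := e.surjective j
    rw [h1]
    exact h i

theorem isEV_rename (e : κ ≃ κ') (P : MvPolynomial κ ℂ) (v : κ' → ℂ) :
    IsEV (rename e P) v ↔ IsEV P (fun i => v (e i)) := by
  have h1 : ∀ i, eval v (pderiv (e i) (rename e P)) = eval (fun i => v (e i)) (pderiv i P) := by
    intro i
    rw [pderiv_rename e.injective, eval_rename]
    rfl
  constructor
  · intro h i j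
    rw [← h1, ← h1]
    exact h _ _
  · intro h i' j'
    obtain ⟨i, rfl⟩ := e.surjective i'
    obtain ⟨j, rfl⟩ := e.surjective j'
    rw [h1, h1]
    exact h i j

theorem mem_chI_rename (e : κ ≃ κ') (P : MvPolynomial κ ℂ) (l : κ → ℂ) (x : MvPolynomial κ ℂ)
    (hx : x ∈ chI P l) : rename e x ∈ chI (rename e P) (fun j => l (e.symm j)) := by
  obtain ⟨y, hy, z, hz, rfl⟩ := Submodule.mem_sup.mp hx
  clear hx
  rw [map_add]
  refine Ideal.add_mem _ (Ideal.mem_sup_left ?_) (Ideal.mem_sup_right ?_)
  · induction hy using Submodule.span_induction with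
    | mem g hg =>
      obtain ⟨i, j, rfl⟩ := hg
      refine Ideal.subset_span ⟨e i, e j, ?_⟩
      rw [map_sub, map_mul, map_mul, rename_X, rename_X, pderiv_rename e.injective, pderiv_rename e.injective]
    | zero => simp
    | add u v _ _ hu hv => rw [map_add]; exact Ideal.add_mem _ hu hv
    | smul c u _ hu => rw [smul_eq_mul, map_mul]; exact Ideal.mul_mem_left _ _ hu
  · obtain ⟨c, rfl⟩ := Ideal.mem_span_singleton'.mp hz
    rw [map_mul]
    refine Ideal.mul_mem_left _ _ (Ideal.subset_span ?_)
    rw [Set.mem_singleton_iff, map_sub, map_one, map_sum]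
    congr 1
    rw [← e.sum_comp]
    refine Finset.sum_congr rfl fun i _ => ?_
    simp only [map_mul, rename_X, rename_C, e.symm_apply_apply]

theorem mulAt_chI_rename (e : κ ≃ κ') (P : MvPolynomial κ ℂ) (l : κ → ℂ) (s : κ → ℂ)
    (hl : ∑ i, l i * s i = 1) (hs : IsSing P s) :
    mulAt (chI P l) s = mulAt (chI (rename e P) (fun j => l (e.symm j))) (fun j => s (e.symm j)) := by
  refine mulAt_congr _ _ _ _ (rename e) ?_ ?_ ?_ ?_
  · intro y
    refine ⟨rename e.symm y, ?_⟩
    rw [rename_rename]
    simp
  · intro x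
    constructor
    · intro hx
      have h1 := mem_chI_rename e.symm _ _ _ hx
      rw [rename_rename, rename_rename] at h1
      simpa using h1
    · exact mem_chI_rename e P l x
  · intro x
    rw [eval_rename]
    congr 2
    funext i
    simp
  · refine chI_eval_zero _ _ _ ?_ ?_
    · rw [← hl]
      exact e.symm.sum_comp fun i => l i * s i
    · rw [isSing_rename]
      simpa using hs

theorem IK.equiv {q M : ℕ} (e : κ ≃ κ') (h : IK q κ M) : IK q κ' M := by
  classical
  obtain ⟨P, hP, hfin, l, S, hS1, hS2, hS3⟩ := h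
  refine ⟨rename e P, hP.rename_isHomogeneous, ?_, fun j => l (e.symm j),
    S.image fun s j => s (e.symm j), ?_, ?_, ?_⟩
  · obtain ⟨T, hT, hT'⟩ := hfin
    refine ⟨(fun t j => t (e.symm j)) '' T, hT.image _, ?_⟩
    intro x hx
    obtain ⟨t, ht, c, hc⟩ := hT' _ ((isEV_rename e P x).mp hx)
    refine ⟨_, ⟨t, ht, rfl⟩, c, ?_⟩
    funext j
    have := congrFun hc (e.symm j)
    simpa using this
  · intro s hs
    obtain ⟨s, hs', rfl⟩ := Finset.mem_image.mp hs
    refine ⟨?_, ?_⟩
    · rw [← (hS1 s hs').1]
      exact e.symm.sum_comp fun i => l i * s i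
    · rw [isSing_rename]
      simpa using (hS1 s hs').2
  · intro v hv hv'
    obtain ⟨s, hs, c, hc⟩ := hS2 (fun i => v (e i)) (by
      intro h0
      apply hv
      funext j
      have := congrFun h0 (e.symm j)
      simpa using this) ((isSing_rename e P v).mp hv')
    refine ⟨_, Finset.mem_image.mpr ⟨s, hs, rfl⟩, c, ?_⟩
    funext j
    have := congrFun hc (e.symm j)
    simpa using this
  · rw [Finset.sum_image]
    · rw [← hS3]
      exact Finset.sum_congr rfl fun s hs => (mulAt_chI_rename e P l s (hS1 s hs).1 (hS1 s hs).2).symm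
    · intro s _ s' _ hss
      funext i
      have := congrFun hss (e i)
      simpa using this

end equiv

/-! ### base -/

theorem ik_zero (q : ℕ) : IK q (Fin 1) 0 := by
  have hpd : ∀ (i : Fin 1) (v : Fin 1 → ℂ), eval v (pderiv i (X 0 ^ (q + 1) : MvPolynomial (Fin 1) ℂ)) =
      (q + 1) * v 0 ^ q := by
    intro i v
    have : i = 0 := Subsingleton.elim _ _
    subst this
    rw [Derivation.leibniz_pow]
    simp
  refine ⟨X 0 ^ (q + 1), ?_, ?_, 0, ∅, by simp, ?_, by simp⟩
  · have := (isHomogeneous_X ℂ (0 : Fin 1)).pow (q + 1)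
    rwa [one_mul] at this
  · refine FinLines.single (fun _ => 1) fun x _ => ⟨x 0, ?_⟩
    funext i
    have : i = 0 := Subsingleton.elim _ _
    subst this
    simp
  · intro v hv hs
    exfalso
    apply hv
    funext i
    have : i = 0 := Subsingleton.elim _ _
    subst this
    have h1 := hs 0
    rw [hpd] at h1
    have h2 : (q + 1 : ℂ) ≠ 0 := by exact_mod_cast Nat.succ_ne_zero q
    have h3 := (mul_eq_zero.mp h1).resolve_left h2
    exact eq_zero_of_pow_eq_zero h3

theorem mulAt_pt {σ : Type*} [Finite σ] (p : σ → ℂ) : mulAt (pt p) p = 1 := by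
  have h := (finrank_eq_sum_mulAt (pt p) {p} (by
    intro q
    rw [Finset.mem_singleton]
    constructor
    · rintro rfl f hf
      exact hf
    · intro hq
      funext i
      have h1 := hq (X i - C (p i)) (by
        change eval p (X i - C (p i)) = 0
        simp)
      rw [map_sub, eval_X, eval_C, sub_eq_zero] at h1
      exact h1)).2
  rw [Finset.sum_singleton] at h
  rw [← h]
  have hker : RingHom.ker (aeval p : MvPolynomial σ ℂ →ₐ[ℂ] ℂ) = pt p := by
    ext f
    rw [RingHom.mem_ker]
    change aeval p f = 0 ↔ eval p f = 0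
    rw [MvPolynomial.aeval_eq_eval]
  have e := Ideal.quotientKerAlgEquivOfSurjective (f := (aeval p : MvPolynomial σ ℂ →ₐ[ℂ] ℂ)) (by
    intro c
    exact ⟨C c, by simp⟩)
  rw [← hker, e.toLinearEquiv.finrank_eq, Module.finrank_self]

theorem sub_C_eval_mem (f : MvPolynomial (Fin 1) ℂ) :
    f - C (eval (fun _ => 1) f) ∈ Ideal.span {(X 0 - 1 : MvPolynomial (Fin 1) ℂ)} := by
  rw [← Ideal.Quotient.eq]
  set J := Ideal.span {(X 0 - 1 : MvPolynomial (Fin 1) ℂ)}
  have h : (Ideal.Quotient.mkₐ ℂ J) = (Ideal.Quotient.mkₐ ℂ J).comp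
      ((Algebra.ofId ℂ (MvPolynomial (Fin 1) ℂ)).comp (aeval fun _ => (1 : ℂ))) := by
    apply MvPolynomial.algHom_ext
    intro i
    have : i = 0 := Subsingleton.elim _ _
    subst this
    simp only [AlgHom.comp_apply, aeval_X, map_one]
    change Ideal.Quotient.mk J (X 0) = (1 : _ ⧸ J)
    rw [← map_one (Ideal.Quotient.mk J), Ideal.Quotient.eq]
    exact Ideal.subset_span rfl
  have h1 := AlgHom.congr_fun h f
  simp only [AlgHom.comp_apply, MvPolynomial.aeval_eq_eval] at h1
  exact h1

theorem ik_one (q : ℕ) : IK q (Fin 1) 1 := by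
  refine ⟨0, isHomogeneous_zero _ _ _, ?_, fun _ => 1, {fun _ => 1}, ?_, ?_, ?_⟩
  · refine FinLines.single (fun _ => 1) fun x _ => ⟨x 0, ?_⟩
    funext i
    have : i = 0 := Subsingleton.elim _ _
    subst this
    simp
  · intro s hs
    rw [Finset.mem_singleton] at hs
    subst hs
    refine ⟨by simp, fun i => by simp⟩
  · intro v _ _
    refine ⟨fun _ => 1, Finset.mem_singleton_self _, v 0, ?_⟩
    funext i
    have : i = 0 := Subsingleton.elim _ _
    subst this
    simp
  · rw [Finset.sum_singleton]
    have h1 : chI (0 : MvPolynomial (Fin 1) ℂ) (fun _ => 1) = pt fun _ => 1 := by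
      apply le_antisymm
      · intro x hx
        exact chI_eval_zero _ _ _ (by simp) (fun i => by simp) x hx
      · intro x hx
        have h2 := sub_C_eval_mem x
        have h3 : eval (fun _ => 1) x = 0 := hx
        rw [h3, C_0, sub_zero] at h2
        refine Ideal.mem_sup_right ?_
        have h4 : (∑ i : Fin 1, C ((fun _ => (1 : ℂ)) i) * X i - 1 : MvPolynomial (Fin 1) ℂ) = X 0 - 1 := by
          simp
        rw [h4]
        exact h2
    rw [h1, mulAt_pt]

end EY
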