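import Mathlib

set_option autoImplicit false

/-!
# EY-IInd: the arithmetic of the induction on `I(P)`
-/

namespace EY

/-- `1 + q + ... + q^(N-1)` -/
def dd (q N : ℕ) : ℕ := ∑ i ∈ Finset.range N, q ^ i

theorem dd_zero (q : ℕ) : dd q 0 = 0 := by simp [dd]

theorem dd_succ (q N : ℕ) : dd q (N + 1) = dd q N + q ^ N := by
  unfold dd; rw [Finset.sum_range_succ]

theorem dd_one (q : ℕ) : dd q 1 = 1 := by simp [dd]

theorem dd_two_mul (K : ℕ) : dd 2 K + 1 = 2 ^ K := by
  induction K with
  | zero => simp [dd]
  | succ K ih => rw [dd_succ, pow_succ]; omega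

theorem dd_three_mul (K : ℕ) : 2 * dd 3 K + 1 = 3 ^ K := by
  induction K with
  | zero => simp [dd]
  | succ K ih => rw [dd_succ, pow_succ]; omega

theorem ind_cover {q : ℕ} (hq : 2 ≤ q) (R : ℕ → ℕ → Prop) (hb0 : R 1 0) (hb1 : R 1 1)
    (hY : ∀ N M X, 1 ≤ N → R N M → 1 ≤ X → X ≤ q - 1 → R (N + 1) (M + (X - 1) * q ^ (N - 1)))
    (hU : ∀ K E, E < 2 * q ^ K → 2 * E ≤ q ^ (K + 1) → R (K + 2) (q ^ K + q ^ (K + 1) - E))
    (hE : ∀ N M, 1 ≤ N → R N M → R (N + 2) ((q + 1) * q ^ N + M)) :
    ∀ N M, 1 ≤ N → M ≤ dd q N → R N M := by
  intro N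
  induction N using Nat.strong_induction_on with
  | _ N ih =>
    intro M hN hM
    match N, hN with
    | 1, _ =>
      rw [dd_one] at hM
      interval_cases M
      · exact hb0
      · exact hb1
    | K + 2, _ =>
      set Y := q ^ K with hYdef
      have hYpos : 1 ≤ Y := Nat.one_le_pow _ _ (by omega)
      have hY1 : q ^ (K + 1) = q * Y := by rw [pow_succ, mul_comm]
      have hDD1 : dd q (K + 1) = dd q K + Y := dd_succ q K
      have hDD2 : dd q (K + 2) = dd q K + Y + q * Y := by rw [dd_succ, hDD1, hY1]
      rw [hDD2] at hM
      by_cases hA : (q + 1) * Y ≤ M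
      · rcases Nat.eq_zero_or_pos K with rfl | hK
        · have h1 := hU 0 0 (by omega) (by omega)
          have hY0 : Y = 1 := by rw [hYdef, pow_zero]
          rw [dd_zero, hY0] at hM
          rw [hY0] at hA
          have h2 : M = q ^ 0 + q ^ (0 + 1) - 0 := by
            rw [zero_add, pow_zero, pow_one]; omega
          rw [h2]; exact h1
        · have hexp : (q + 1) * Y = Y + q * Y := by ring
          have h1 : M - (q + 1) * Y ≤ dd q K := by omega
          have h2 := hE K _ hK (ih K (by omega) _ hK h1)
          rw [← hYdef] at h2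
          rwa [show (q + 1) * Y + (M - (q + 1) * Y) = M by omega] at h2
      · have hexp : (q + 1) * Y = Y + q * Y := by ring
        by_cases hB : Y + q * Y - M < 2 * Y ∧ 2 * (Y + q * Y - M) ≤ q * Y
        · have h1 := hU K (Y + q * Y - M) hB.1 (by rw [hY1]; exact hB.2)
          rw [hY1, ← hYdef] at h1
          rwa [show Y + q * Y - (Y + q * Y - M) = M by omega] at h1
        · -- the Y-step
          have hC : M ≤ (q - 2) * Y + dd q (K + 1) := by
            rw [hDD1]
            have e1 : (q - 2) * Y + 2 * Y = q * Y := by
              rw [← Nat.add_mul, Nat.sub_add_cancel hq]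
            rw [not_and_or, not_lt, not_le] at hB
            rcases hB with hB | hB
            · omega
            · rcases Nat.lt_or_ge q 4 with hr | hr
              · have h5 : q = 2 ∨ q = 3 := by omega
                rcases h5 with rfl | rfl
                · have := dd_two_mul K
                  rw [← hYdef] at this
                  omega
                · have := dd_three_mul K
                  rw [← hYdef] at this
                  omega
              · have h6 : 2 * Y ≤ (q - 2) * Y := Nat.mul_le_mul_right _ (by omega)
                omega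
          have hDDY : Y ≤ dd q (K + 1) := by omega
          obtain ⟨j, hj, hj'⟩ : ∃ j, j ≤ q - 2 ∧ j * Y ≤ M ∧ M - j * Y ≤ dd q (K + 1) := by
            by_cases h1 : M / Y ≤ q - 2
            · refine ⟨M / Y, h1, Nat.div_mul_le_self M Y, ?_⟩
              have h2 : M - M / Y * Y = M % Y := by
                have := Nat.div_add_mod M Y
                rw [mul_comm] at this
                omega
              rw [h2]
              exact (Nat.mod_lt M hYpos).le.trans hDDY
            · have h2 : (q - 2) * Y ≤ M := by
                have h3 : (q - 2) * Y ≤ M / Y * Y := Nat.mul_le_mul_right _ (by omega)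
                exact h3.trans (Nat.div_mul_le_self M Y)
              exact ⟨q - 2, le_rfl, h2, by omega⟩
          have h3 := hY (K + 1) (M - j * Y) (j + 1) (by omega) (ih (K + 1) (by omega) _ (by omega) hj'.2)
            (by omega) (by omega)
          rw [Nat.add_sub_cancel, Nat.add_sub_cancel] at h3
          rw [← hYdef] at h3
          rwa [show M - j * Y + j * Y = M by omega] at h3

end EY
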