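import Pool.Agent.helper35.EY.YF
import Pool.Agent.helper49.EY.YMul
import Pool.Agent.helper60.LS.Ext

/-!
# EY-YForm: the Y-form; proved in `helper35/EY/YF.lean` (`yform_hom35`, `yform_fin35`, `yform_sing35`),
`helper49/EY/YMul.lean` (`yform_mul_y49`) and `helper60/LS/Ext.lean` (`mul_ext_h60`)
-/
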