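import Pool.Agent.helper81.EY.IQof
import Pool.Agent.helper81.EY.IEq
import Pool.Agent.helper81.EY.IInd
import Pool.Agent.helper81.EY.YForm
import Pool.Agent.helper74.EY.EFormP
import Pool.Agent.helper35.EY.EF
import Pool.Agent.helper35.EY.YF
import Pool.Agent.helper35.EY.FinS
import Pool.Agent.helper60.LS.Ext
import Pool.Agent.helper50.EY.Scale
import Pool.Agent.helper50.EY.ClassE
import Pool.Agent.helper5.EY.Comp

set_option autoImplicit false
set_option linter.unusedSectionVars false

/-!
# EY-EStep: the E-step (module M8)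
-/

namespace EY

open MvPolynomial

section

variable {τ : Type} [Fintype τ] [DecidableEq τ] {q M : ℕ}

theorem exists_ne_zero_not_mem {A : Set ℂ} (hA : A.Finite) : ∃ t : ℂ, t ≠ 0 ∧ t ∉ A := by
  obtain ⟨t, ht⟩ := (hA.union (Set.finite_singleton (0 : ℂ))).infinite_compl.nonempty
  rw [Set.mem_compl_iff, Set.mem_union, not_or] at ht
  exact ⟨t, fun h => ht.2 (by rw [h]; rfl), ht.1⟩

theorem eval_wh_zero {σ : Type*} [Fintype σ] {v : σ → ℕ} {n : ℕ} {ψ : MvPolynomial σ ℂ} (h : wh v n ψ)
    (hn : n ≠ 0) : eval (0 : σ → ℂ) ψ = 0 := by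
  have h1 := eval_wh h 0 (0 : σ → ℂ)
  rw [zero_pow hn, zero_mul] at h1
  rw [← h1]
  congr 2
  funext i
  simp

/-! ### U-states -/

theorem ik_of_state {E : ℕ} (hq : 2 ≤ q) {φ : MvPolynomial (Option (Option τ)) ℂ} (h : St τ q E φ)
    (hc : Crit φ) : IK q (Fin (Fintype.card τ + 2)) (q ^ Fintype.card τ + q ^ (Fintype.card τ + 1) - E) := by
  obtain ⟨t, ht, hm, hg⟩ := exists_mst_mg (by omega) h
  have hc' : Crit (scT t φ) := crit_scT hc t ht
  set ψ := scT t φ with hψ
  have hmul := classC (by omega) hm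
  have h0 : ∀ o, eval (0 : Option (Option τ) → ℂ) (pderiv o ψ) = 0 := by
    intro o
    rcases o with _ | o
    · exact eval_wh_zero (wh_pderiv hm.wh none (q - 1) (by change q - 1 + 2 = q + 1; omega)) (by omega)
    · exact eval_wh_zero (wh_pderiv hm.wh (some o) q (by rcases o with _ | o <;> rfl)) (by omega)
  have hvec0 : vec (1 * 0 + hsq (0 : τ → ℂ)) 0 (0 : τ → ℂ) = 0 := by
    rw [hsq_zero]
    funext o
    rcases o with _ | _ | o <;> simp [vec]
  refine ik_of_form rfl (formC ψ) (formC_hom hm.wh) (hm.projFin hq) ?_ ?_ (by omega)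
  · have e1 : (fun o : Option (Option τ) => o.elim (1 : ℂ) (0 : Option τ → ℂ)) = vec 1 0 0 := by
      funext o
      rcases o with _ | _ | o <;> rfl
    intro j
    rw [e1]
    rcases j with _ | o
    · rw [pderiv_formC_none, zero_mul]
    · rw [pderiv_formC_some, hvec0, h0, h0, mul_zero, add_zero]
  · intro x hx
    rw [← vec_eta x] at hx
    have hu := hx none
    rw [pderiv_formC_none] at hu
    have hsm : ∀ o : Option τ, _ := fun o => (pderiv_formC_some ψ (x none) (x (some none))
      (fun i => x (some (some i))) o).symm.trans (hx (some o))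
    rcases mul_eq_zero.mp hu with hw | hs
    · have hx0 : (fun i => x (some (some i))) = 0 := by
        apply hg
        intro i
        have h1 := hsm (some i)
        rw [hw] at h1
        rw [mul_zero, zero_add] at h1
        exact h1
      intro o
      rcases o with _ | i
      · exact hw
      · exact congrFun hx0 i
    · have hall : ∀ v, eval (vec (x none * x (some none) + hsq fun i => x (some (some i))) (x (some none))
          (fun i => x (some (some i)))) (pderiv v ψ) = 0 := by
        intro v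
        rcases v with _ | o
        · exact hs
        · have h1 := hsm o
          rw [hs, mul_zero, add_zero] at h1
          exact h1
      intro o
      have h2 := hc' _ hall o
      rcases o with _ | i
      · exact h2
      · exact h2

/-! ### E-forms -/

theorem isSing_eform_eu (hq : 1 ≤ q) {P : MvPolynomial (Option τ) ℂ} (hP : P.IsHomogeneous (q + 1)) (t : ℂ) :
    IsSing (eform q t P) (fun o : Option (Option (Option τ)) => o.elim 1 0) := by
  intro j
  rcases j with _ | _ | o
  · rw [eform_pd_u35, map_zero]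
  · rw [eform_pd_w35]
    simp only [Option.elim, Pi.zero_apply]
    rw [zero_pow (by omega), mul_zero, mul_zero, add_zero]
  · rw [eform_pd_x35 q t P _ rfl o]
    have h1 : ((pderiv o P)).IsHomogeneous (q + 1 - 1) := hP.pderiv
    have h2 := eval_smul_hom h1 (0 : ℂ) (0 : Option τ → ℂ)
    rw [zero_smul, Nat.add_sub_cancel, zero_pow (by omega), zero_mul] at h2
    exact h2

theorem exists_eform (hq : 2 ≤ q) (h : IQ q τ M) :
    ∃ f : MvPolynomial (Option (Option (Option τ))) ℂ, f.IsHomogeneous (q + 1) ∧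
      FinLines (IsEig f (gram (Option τ))) ∧ IsSing f (fun o : Option (Option (Option τ)) => o.elim 1 0) ∧
      (∀ x : Option (Option (Option τ)) → ℂ, IsSing f x → ∀ v : Option (Option τ), x (some v) = 0) ∧
      mulAt (affIdeal f (gram (Option τ)) (some none)) 0 = (q + 1) * q ^ (Fintype.card τ + 1) + M := by
  obtain ⟨P, S, hD⟩ := h
  obtain ⟨t, ht, ht'⟩ := exists_ne_zero_not_mem (eform_sing' hq hD)
  have hs := not_not.mp ht'
  refine ⟨eform q t P, eform_hom' hD.hom t, eform_fin35 hq hD t ht hs, isSing_eform_eu (by omega) hD.hom t, hs, ?_⟩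
  rw [eform_mul' hq hD t ht hs]
  ring

theorem ik_e (hq : 2 ≤ q) (h : IQ q τ M) :
    IK q (Fin (Fintype.card τ + 3)) ((q + 1) * q ^ (Fintype.card τ + 1) + M) := by
  obtain ⟨f, h1, h2, h3, h4, h5⟩ := exists_eform hq h
  exact ik_of_form (by rw [Fintype.card_option]) f h1 h2 h3 h4 h5

theorem rz_e (hq : 2 ≤ q) (h : IQ q τ M) :
    Rz q (Fintype.card τ + 3) ((q + 1) * q ^ (Fintype.card τ + 1) + M) := by
  obtain ⟨f, h1, h2, h3, h4, h5⟩ := exists_eform hq h
  exact rz_of_form (by rw [Fintype.card_option]) f h1 h2 (affIdeal_eval_zero f (some none) 0 h3) h5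

/-! ### Y-forms -/

theorem eval_yQ_b {X' : ℕ} (h2 : X' ≤ q - 1) (a : ℂ) (z : τ → ℂ) :
    2 * eval (fun o : Option (Option τ) => o.elim 0 (fun o' : Option τ => o'.elim 1 z)) (yQ q X' a) = a := by
  unfold yQ
  split_ifs with h
  · simp only [map_mul, eval_C, map_pow, eval_X, Option.elim]
    rw [one_pow]; ring
  · simp only [map_sub, map_mul, eval_C, map_pow, eval_X, Option.elim]
    rw [one_pow, zero_pow (by omega), mul_zero, mul_zero]
    ring

theorem isSing_yform_y (hq : 2 ≤ q) {P : MvPolynomial (Option τ) ℂ} (hP : P.IsHomogeneous (q + 1)) (X' : ℕ)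
    (h1 : 2 ≤ X') (h2 : X' ≤ q - 1) (a : ℂ) :
    IsSing (yform q X' a P) (fun o : Option (Option τ) => o.elim 1 0) := by
  have hP0 : ∀ o, eval (0 : Option τ → ℂ) (pderiv o P) = 0 := by
    intro o
    have h3 : ((pderiv o P)).IsHomogeneous (q + 1 - 1) := hP.pderiv
    have h4 := eval_smul_hom h3 (0 : ℂ) (0 : Option τ → ℂ)
    rw [zero_smul, Nat.add_sub_cancel, zero_pow (by omega), zero_mul] at h4
    exact h4
  intro j
  rcases j with _ | o
  · rw [yform_pd_y35, map_mul, eval_yg35 hq X' h2 a]
    simp only [Option.elim, Pi.zero_apply]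
    rw [zero_pow (by omega : q - 1 ≠ 0), zero_pow (by omega : X' ≠ 0)]
    simp
  · rw [yform_pd_x35, map_add, map_mul, eval_rename]
    have h3 : ((fun o : Option (Option τ) => o.elim (1 : ℂ) (0 : Option τ → ℂ)) ∘ some) = 0 := rfl
    rw [h3, hP0 o, zero_add]
    rcases o with _ | i
    · rw [eval_yQ_b35 hq X' (by omega) h2 a]
      simp only [Option.elim, Pi.zero_apply]
      rw [zero_pow (by omega : q - 2 ≠ 0), zero_pow (by omega : X' - 1 ≠ 0)]
      simp
    · rw [pderiv_yQ_z35, map_zero, mul_zero]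

theorem ik_y {P : MvPolynomial (Option τ) ℂ} {S : Finset (τ → ℂ)} (hq : 2 ≤ q) (h : IQD q τ P S M) (X' : ℕ)
    (h1 : 1 ≤ X') (h2 : X' ≤ q - 1) :
    IK q (Option (Option τ)) (M + (X' - 1) * q ^ Fintype.card τ) := by
  classical
  obtain ⟨a, ha, ha'⟩ := exists_ne_zero_not_mem ((yform_fin35 hq h X' h1 h2).union (yform_sing35 hq h X' h1 h2))
  rw [Set.mem_union, not_or] at ha'
  have hfin := not_not.mp ha'.1
  have hsing := not_not.mp ha'.2
  set F := yform q X' a P with hF
  have hhom : F.IsHomogeneous (q + 1) := yform_hom35 hq h.hom X' h1 h2 a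
  -- the linear form `y + b`
  set l : Option (Option τ) → ℂ := fun o => o.elim 1 fun o' => o'.elim 1 0 with hl
  have hlsum : ∀ v : Option (Option τ) → ℂ, ∑ i, l i * v i = v none + v (some none) := by
    intro v
    rw [Fintype.sum_option, Fintype.sum_option]
    simp [hl]
  set pS : (τ → ℂ) → (Option (Option τ) → ℂ) := fun z o => o.elim 0 fun o' => o'.elim 1 z with hpS
  set py : Option (Option τ) → ℂ := fun o => o.elim 1 0 with hpy
  have hpSinj : Function.Injective pS := by
    intro z z' hzz
    funext i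
    exact congrFun hzz (some (some i))
  have hpySnot : ∀ z, pS z ≠ py := by
    intro z h0
    have := congrFun h0 none
    simp [hpS, hpy] at this
  -- singular points
  have hsingS : ∀ z ∈ S, IsSing F (pS z) := by
    intro z hz j
    have hzs := (h.sing z).mp hz
    rcases j with _ | o
    · rw [hF, yform_pd_y35, map_mul, eval_X]
      exact zero_mul _
    · rw [hF, yform_pd_x35, map_add, map_mul, eval_rename]
      have h3 : (pS z ∘ some) = fun o' : Option τ => o'.elim 1 z := rfl
      rw [h3, hzs o, zero_add, map_pow, eval_X]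
      have h4 : pS z none = 0 := rfl
      rw [h4, zero_pow (by norm_num), zero_mul]
  have hcov : ∀ v : Option (Option τ) → ℂ, v ≠ 0 → v none = 0 → IsSing P (fun o => v (some o)) →
      ∃ s ∈ S.image pS, ∃ c : ℂ, v = c • s := by
    intro v hv hvn hvs
    have hb : v (some none) ≠ 0 := by
      intro hb
      have h3 := h.ns (fun o => v (some o)) hb (fun i => hvs (some i))
      apply hv
      funext o
      rcases o with _ | o
      · exact hvn
      · exact congrFun h3 o
    refine ⟨pS (fun i => (v (some none))⁻¹ * v (some (some i))), Finset.mem_image.mpr ⟨_, ?_, rfl⟩,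
      v (some none), ?_⟩
    · rw [h.sing]
      have h3 := IsSing.smul h.hom hvs (v (some none))⁻¹
      have h4 : (v (some none))⁻¹ • (fun o : Option τ => v (some o)) =
          fun o : Option τ => o.elim 1 (fun i => (v (some none))⁻¹ * v (some (some i))) := by
        funext o
        rcases o with _ | i
        · exact inv_mul_cancel₀ hb
        · rfl
      rw [h4] at h3
      exact h3
    · funext o
      rcases o with _ | _ | i
      · rw [hvn]; simp [hpS]
      · simp [hpS]
      · simp only [hpS, Pi.smul_apply, smul_eq_mul, Option.elim]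
        rw [mul_inv_cancel_left₀ hb]
  -- multiplicities
  have hmulS : ∀ z ∈ S, mulAt (chI F l) (pS z) =
      mulAt (affIdeal P (1 : Matrix (Option τ) (Option τ) ℂ) none) z := by
    intro z hz
    have hzs := (h.sing z).mp hz
    have e1 : mulAt (chI F l) (pS z) = mulAt (chI F (fun o => o.elim 0 (Pi.single none 1))) (pS z) := by
      refine chI_indep hhom _ _ _ ?_ ?_
      · rw [hlsum]; simp [hpS]
      · rw [Fintype.sum_option, Fintype.sum_option]; simp [hpS]
    rw [e1]
    have e2 := mul_ext_h60 P (yQ q X' a) h.hom (Pi.single none 1) (fun o' : Option τ => o'.elim 1 z) 0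
      (by rw [Fintype.sum_option]; simp) (fun i => by rw [hzs i, zero_mul])
      (by rw [eval_yQ_b h2]; exact ha)
    refine e2.trans ?_
    exact mulAt_chI_single P z (affIdeal_eval_zero P none z hzs)
  by_cases hX : 2 ≤ X'
  · have hys := isSing_yform_y hq h.hom X' hX h2 a
    refine ⟨F, hhom, hfin, l, insert py (S.image pS), ?_, ?_, ?_⟩
    · intro s hs
      rcases Finset.mem_insert.mp hs with rfl | hs
      · exact ⟨by rw [hlsum]; simp [hpy], hys⟩
      · obtain ⟨z, hz, rfl⟩ := Finset.mem_image.mp hs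
        exact ⟨by rw [hlsum]; simp [hpS], hsingS z hz⟩
    · intro v hv hvs
      rcases hsing v hvs with ⟨hvn, hvP⟩ | ⟨_, hvo⟩
      · obtain ⟨s, hs, c, hc⟩ := hcov v hv hvn hvP
        exact ⟨s, Finset.mem_insert_of_mem hs, c, hc⟩
      · refine ⟨py, Finset.mem_insert_self _ _, v none, ?_⟩
        funext o
        rcases o with _ | o
        · simp [hpy]
        · rw [hvo o]; simp [hpy]
    · rw [Finset.sum_insert, Finset.sum_image fun z _ z' _ hzz => hpSinj hzz]
      · have e3 : mulAt (chI F l) py = (X' - 1) * q ^ Fintype.card τ := by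
          have e4 : mulAt (chI F l) py = mulAt (chI F (Pi.single none 1)) py := by
            refine chI_indep hhom _ _ _ ?_ ?_
            · rw [hlsum]; simp [hpy]
            · rw [Fintype.sum_option]; simp [hpy]
          rw [e4]
          have e5 := mulAt_chI_single F (0 : Option τ → ℂ) (affIdeal_eval_zero F none 0 hys)
          rw [yform_mul_y49 hq h X' hX h2 a ha] at e5
          exact e5
        rw [e3, Finset.sum_congr rfl hmulS, h.sum]
        ring
      · intro hmem
        obtain ⟨z, _, hz⟩ := Finset.mem_image.mp hmem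
        exact hpySnot z hz
  · have hX1 : X' = 1 := by omega
    refine ⟨F, hhom, hfin, l, S.image pS, ?_, ?_, ?_⟩
    · intro s hs
      obtain ⟨z, hz, rfl⟩ := Finset.mem_image.mp hs
      exact ⟨by rw [hlsum]; simp [hpS], hsingS z hz⟩
    · intro v hv hvs
      rcases hsing v hvs with ⟨hvn, hvP⟩ | ⟨h3, _⟩
      · exact hcov v hv hvn hvP
      · omega
    · rw [Finset.sum_image fun z _ z' _ hzz => hpSinj hzz, Finset.sum_congr rfl hmulS, h.sum, hX1]
      simp

theorem ik_y' (hq : 2 ≤ q) (h : IQ q τ M) (X' : ℕ) (h1 : 1 ≤ X') (h2 : X' ≤ q - 1) :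
    IK q (Fin (Fintype.card τ + 2)) (M + (X' - 1) * q ^ Fintype.card τ) := by
  obtain ⟨P, S, hD⟩ := h
  have hcard : Fintype.card (Option (Option τ)) = Fintype.card (Fin (Fintype.card τ + 2)) := by
    rw [Fintype.card_option, Fintype.card_option, Fintype.card_fin]
  exact (ik_y hq hD X' h1 h2).equiv (Fintype.equivOfCardEq hcard)

end

/-- the statement needed from the U team -/
def UCrit (q : ℕ) : Prop :=
  ∀ K E, E < 2 * q ^ K → 2 * E ≤ q ^ (K + 1) →
    ∃ φ : MvPolynomial (Option (Option (Fin K))) ℂ, St (Fin K) q E φ ∧ Crit φ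

/-- THEOREM `I(N)`: every `M ≤ 1 + q + ... + q^(N-1)` is `I(P)` for a form in `N` variables -/
theorem ik_all {q : ℕ} (hq : 2 ≤ q) (hU : UCrit q) (N M : ℕ) (hN : 1 ≤ N) (hM : M ≤ dd q N) :
    IK q (Fin N) M := by
  refine ind_cover hq (fun N M => IK q (Fin N) M) (ik_zero q) (ik_one q) ?_ ?_ ?_ N M hN hM
  · intro N M X hN h h1 h2
    have h3 : IQ q (Fin (N - 1)) M := iq_of_ik (by omega) (by rw [Fintype.card_fin]; omega) h
    have h4 := ik_y' hq h3 X h1 h2
    rw [Fintype.card_fin, show N - 1 + 2 = N + 1 by omega] at h4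
    exact h4
  · intro K E hE1 hE2
    obtain ⟨φ, hφ, hc⟩ := hU K E hE1 hE2
    have h4 := ik_of_state hq hφ hc
    rw [Fintype.card_fin] at h4
    exact h4
  · intro N M hN h
    have h3 : IQ q (Fin (N - 1)) M := iq_of_ik (by omega) (by rw [Fintype.card_fin]; omega) h
    have h4 := ik_e hq h3
    rw [Fintype.card_fin, show N - 1 + 3 = N + 2 by omega, show N - 1 + 1 = N by omega] at h4
    exact h4

/-- THE E-STEP -/
theorem estep_of {q : ℕ} (hq : 2 ≤ q) (hU : UCrit q) (K m : ℕ) (hK : 1 ≤ K) (hm : m ≤ dd q K) :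
    Rz q (K + 2) ((q + 1) * q ^ K + m) := by
  have h := ik_all hq hU K m hK hm
  have h3 : IQ q (Fin (K - 1)) m := iq_of_ik (by omega) (by rw [Fintype.card_fin]; omega) h
  have h4 := rz_e hq h3
  rw [Fintype.card_fin, show K - 1 + 3 = K + 2 by omega, show K - 1 + 1 = K by omega] at h4
  exact h4

theorem dd_eq (q K : ℕ) : dd q K = DD q K := rfl

end EY
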