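import Pool.Agent.helper81.EY.EStep
import Pool.Agent.helper84.EY.X20B
import Pool.Agent.helper84.EY.X21D
import Pool.Agent.helper26.SE.Asm

set_option autoImplicit false

/-!
# EY-Q3: the window `(20, 22.5)` (units `3^K`, `K + 4` variables) for `q = 3`
-/

namespace EY

theorem x20_all81 (hU : UCrit 3) (K m : ℕ) (hm : m ≤ dd 3 (K + 1)) : Rz 3 (K + 4) (20 * 3 ^ K + m) := by
  have h := ik_all (by norm_num) hU (K + 1) m (by omega) hm
  obtain ⟨P, S, hD⟩ : IQ 3 (Fin K) m := iq_of_ik (by norm_num) (by rw [Fintype.card_fin]) h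
  have h4 := X20.x20 hD (fun t ht => special_sheet (by norm_num) hD ht)
  rwa [Fintype.card_fin] at h4

theorem x21_all81 (hU : UCrit 3) (K m : ℕ) (hm : m ≤ dd 3 (K + 1)) : Rz 3 (K + 4) (21 * 3 ^ K + m) := by
  have h := ik_all (by norm_num) hU (K + 1) m (by omega) hm
  obtain ⟨P, S, hD⟩ : IQ 3 (Fin K) m := iq_of_ik (by norm_num) (by rw [Fintype.card_fin]) h
  have h4 := X21.x21 hD (fun t ht => special_sheet (by norm_num) hD ht)
  rwa [Fintype.card_fin] at h4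

/-- hypothesis `hd` of `SE.all3` -/
theorem hd3_81 (hU : UCrit 3) (κ m : ℕ) (h1 : 20 * 3 ^ κ < m) (h2 : 2 * m < 45 * 3 ^ κ) : Rz 3 (κ + 4) m :=
  SE.window3_X (Rz 3) (fun κ m _ hm => x20_all81 hU κ m hm) (fun κ m _ hm => x21_all81 hU κ m hm) κ m h1 h2

/-- hypothesis `hE` of `SE.all_big`, `all3`, `all4`, `all5` -/
theorem hE_81 {q : ℕ} (hq : 2 ≤ q) (hU : UCrit q) (κ m : ℕ) (h1 : 1 ≤ κ) (_h2 : 1 ≤ m) (h3 : m ≤ SE.D q κ) :
    Rz q (κ + 2) ((q + 1) * q ^ κ + m) :=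
  estep_of hq hU κ m h1 h3

end EY
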