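import Pool.Agent.helper5.EY.Tr2

set_option autoImplicit false

/-!
# Bertini for hyperplane sections of a hypersurface with finitely many singular points

`f` a form of degree `≥ 2` in `N` variables over `ℂ` whose singular points lie on finitely many lines
`ℂ s`, `s ∈ S`. Then there is a linear form `b` which does not vanish at the points of `S` and such that
the hypersurface `f = 0` is nowhere tangent to the hyperplane `b = 0`.
-/

namespace EY

open MvPolynomial

theorem eval₂_optionEquivLeft {σ τ : Type} (f : MvPolynomial τ ℂ) (g : σ → MvPolynomial τ ℂ)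
    (Φ : MvPolynomial (Option σ) ℂ) :
    Polynomial.eval₂ (aeval g : MvPolynomial σ ℂ →ₐ[ℂ] MvPolynomial τ ℂ).toRingHom f
      (optionEquivLeft ℂ σ Φ) = aeval (fun o : Option σ => o.elim f g) Φ := by
  induction Φ using MvPolynomial.induction_on with
  | C a =>
    rw [optionEquivLeft_C, Polynomial.eval₂_C]
    simp
  | add p q hp hq =>
    rw [map_add, Polynomial.eval₂_add, hp, hq, map_add]
  | mul_X p i hp =>
    rw [map_mul, Polynomial.eval₂_mul, hp, map_mul]
    congr 1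
    cases i with
    | none => rw [optionEquivLeft_X_none, Polynomial.eval₂_X, aeval_X]; rfl
    | some i => rw [optionEquivLeft_X_some, Polynomial.eval₂_C, aeval_X]; simp

theorem eval_aeval_fun {σ τ : Type} (x : τ → ℂ) (g : σ → MvPolynomial τ ℂ) (R : MvPolynomial σ ℂ) :
    eval x (aeval g R) = eval (fun i => eval x (g i)) R := by
  induction R using MvPolynomial.induction_on with
  | C a => simp
  | add p q hp hq => rw [map_add, map_add, hp, hq, map_add]
  | mul_X p i hp => rw [map_mul, map_mul, hp, map_mul, aeval_X, eval_X]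

/-- a polynomial relation between `f` and `N` further polynomials: some `R ≠ 0` with `f ∣ R(g)` -/
theorem exists_dvd_grad {σ : Type} [Fintype σ] (f : MvPolynomial σ ℂ) (hf : f ≠ 0)
    (g : σ → MvPolynomial σ ℂ) :
    ∃ R : MvPolynomial σ ℂ, R ≠ 0 ∧ f ∣ aeval g R := by
  classical
  let h : Option σ → MvPolynomial σ ℂ := fun o => o.elim f g
  have hdep : ¬ AlgebraicIndependent ℂ h := by
    intro hi
    have h1 := hi.cardinalMk_le_trdeg
    rw [MvPolynomial.trdeg_of_isDomain] at h1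
    simp only [Cardinal.mk_fintype, Fintype.card_option,
      Cardinal.lift_natCast] at h1
    have h2 : Fintype.card σ + 1 ≤ Fintype.card σ := by exact_mod_cast h1
    omega
  rw [algebraicIndependent_iff] at hdep
  push Not at hdep
  obtain ⟨Φ, hΦ, hΦ0⟩ := hdep
  set Ψ : Polynomial (MvPolynomial σ ℂ) := optionEquivLeft ℂ σ Φ with hΨ
  have hΨ0 : Ψ ≠ 0 := by
    rw [hΨ]
    intro h0
    exact hΦ0 ((optionEquivLeft ℂ σ).map_eq_zero_iff.mp h0)
  have hev : Polynomial.eval₂ (aeval g : MvPolynomial σ ℂ →ₐ[ℂ] _).toRingHom f Ψ = 0 := by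
    rw [hΨ, eval₂_optionEquivLeft]
    exact hΦ
  obtain ⟨Q, hQ, hQ'⟩ := Polynomial.exists_eq_pow_rootMultiplicity_mul_and_not_dvd Ψ hΨ0 0
  rw [map_zero, sub_zero] at hQ hQ'
  rw [hQ, Polynomial.eval₂_mul, Polynomial.eval₂_pow, Polynomial.eval₂_X] at hev
  have hQ0 := (mul_eq_zero.mp hev).resolve_left (pow_ne_zero _ hf)
  refine ⟨Q.coeff 0, fun h0 => hQ' (Polynomial.X_dvd_iff.mpr h0), ?_⟩
  have h1 : Polynomial.eval₂ (aeval g : MvPolynomial σ ℂ →ₐ[ℂ] _).toRingHom f
      (Q.divX * Polynomial.X + Polynomial.C (Q.coeff 0)) = 0 := by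
    rw [Polynomial.divX_mul_X_add]; exact hQ0
  rw [Polynomial.eval₂_add, Polynomial.eval₂_mul, Polynomial.eval₂_X, Polynomial.eval₂_C] at h1
  have h2 : (aeval g : MvPolynomial σ ℂ →ₐ[ℂ] _) (Q.coeff 0)
      = f * (- Polynomial.eval₂ (aeval g : MvPolynomial σ ℂ →ₐ[ℂ] _).toRingHom f Q.divX) := by
    have h3 := eq_neg_of_add_eq_zero_right h1
    have h4 : (aeval g : MvPolynomial σ ℂ →ₐ[ℂ] _).toRingHom (Q.coeff 0)
      = (aeval g : MvPolynomial σ ℂ →ₐ[ℂ] _) (Q.coeff 0) := rfl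
    rw [← h4, h3]
    ring
  exact ⟨_, h2⟩

/-- BERTINI: a linear form `b` nonzero at the singular points and nowhere tangent to the hypersurface;
`b` may moreover be chosen outside any hypersurface `G = 0`. -/
theorem bertini {σ : Type} [Fintype σ] {d : ℕ} (hd : 2 ≤ d) (f : MvPolynomial σ ℂ)
    (hf : f.IsHomogeneous d) (S : Finset (σ → ℂ)) (hS0 : ∀ s ∈ S, s ≠ 0)
    (hS : ∀ v : σ → ℂ, v ≠ 0 → (∀ i, eval v (pderiv i f) = 0) → ∃ s ∈ S, ∃ c : ℂ, v = c • s)
    (G : MvPolynomial σ ℂ) (hG : G ≠ 0) :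
    ∃ b : σ → ℂ, eval b G ≠ 0 ∧ (∀ s ∈ S, ∑ i, b i * s i ≠ 0) ∧
      ∀ v : σ → ℂ, v ≠ 0 → ∑ i, b i * v i = 0 → ∀ μ : ℂ, ¬ ∀ i, eval v (pderiv i f) = μ * b i := by
  classical
  obtain ⟨R, hR, hR'⟩ : ∃ R : MvPolynomial σ ℂ, R ≠ 0 ∧
      (f ≠ 0 → f ∣ aeval (fun i => pderiv i f) R) := by
    by_cases h0 : f = 0
    · exact ⟨1, one_ne_zero, fun h => absurd h0 h⟩
    · obtain ⟨R, h1, h2⟩ := exists_dvd_grad f h0 fun i => pderiv i f
      exact ⟨R, h1, fun _ => h2⟩
  set L : (σ → ℂ) → MvPolynomial σ ℂ := fun s => ∑ i, X i * C (s i) with hL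
  have hLev : ∀ b s, eval b (L s) = ∑ i, b i * s i := by
    intro b s
    simp [hL]
  have hL0 : ∀ s, s ≠ 0 → L s ≠ 0 := by
    intro s hs h0
    apply hs
    funext i
    have h1 := hLev (Pi.single i 1) s
    rw [h0, map_zero] at h1
    simpa [Pi.single_apply] using h1.symm
  have hB : G * R * ∏ s ∈ S, L s ≠ 0 :=
    mul_ne_zero (mul_ne_zero hG hR) (Finset.prod_ne_zero_iff.mpr fun s hs => hL0 s (hS0 s hs))
  obtain ⟨b, hb⟩ : ∃ b, eval b (G * R * ∏ s ∈ S, L s) ≠ 0 := by
    by_contra hcon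
    push Not at hcon
    exact hB (MvPolynomial.funext fun x => by rw [hcon x, map_zero])
  rw [map_mul, map_mul, map_prod] at hb
  have hbG := left_ne_zero_of_mul (left_ne_zero_of_mul hb)
  have hbR := right_ne_zero_of_mul (left_ne_zero_of_mul hb)
  have hbS : ∀ s ∈ S, ∑ i, b i * s i ≠ 0 := by
    intro s hs
    rw [← hLev]
    exact Finset.prod_ne_zero_iff.mp (right_ne_zero_of_mul hb) s hs
  refine ⟨b, hbG, hbS, ?_⟩
  intro v hv hbv μ hμ
  have hns : ¬ ∀ i, eval v (pderiv i f) = 0 := by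
    intro h0
    obtain ⟨s, hs, c, hc⟩ := hS v hv h0
    have h1 : ∑ i, b i * v i = c * ∑ i, b i * s i := by
      rw [Finset.mul_sum, hc]
      exact Finset.sum_congr rfl fun i _ => by rw [Pi.smul_apply, smul_eq_mul]; ring
    rw [hbv] at h1
    have hc0 : c = 0 := (mul_eq_zero.mp h1.symm).resolve_right (hbS s hs)
    exact hv (by rw [hc, hc0, zero_smul])
  have hf0 : f ≠ 0 := by
    intro h0
    apply hns
    intro i
    rw [h0]
    simp
  have hμ0 : μ ≠ 0 := by
    rintro rfl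
    exact hns fun i => by rw [hμ i, zero_mul]
  obtain ⟨t, ht⟩ := IsAlgClosed.exists_pow_nat_eq (μ⁻¹) (show 0 < d - 1 by omega)
  have hgt : ∀ i, eval (t • v) (pderiv i f) = b i := by
    intro i
    rw [eval_smul_hom hf.pderiv, ht, hμ i, ← mul_assoc, inv_mul_cancel₀ hμ0, one_mul]
  have hft : eval (t • v) f = 0 := by
    have h1 := congrArg (eval (t • v)) hf.sum_X_mul_pderiv
    rw [map_sum, nsmul_eq_mul, map_mul, map_natCast] at h1
    have h2 : ∑ i, eval (t • v) (X i * pderiv i f) = 0 := by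
      have h3 : ∀ i, eval (t • v) (X i * pderiv i f) = t * (b i * v i) := by
        intro i
        rw [map_mul, hgt i, eval_X, Pi.smul_apply, smul_eq_mul]
        ring
      simp only [h3]
      rw [← Finset.mul_sum, hbv, mul_zero]
    rw [h2] at h1
    have h4 : (d : ℂ) ≠ 0 := by exact_mod_cast (show d ≠ 0 by omega)
    exact (mul_eq_zero.mp h1.symm).resolve_left h4
  obtain ⟨Q, hQ⟩ := hR' hf0
  have h5 := congrArg (eval (t • v)) hQ
  rw [map_mul, hft, zero_mul] at h5
  have h6 : eval (t • v) (aeval (fun i => pderiv i f) R) = eval b R := by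
    have h7 : (fun i => eval (t • v) (pderiv i f)) = b := funext hgt
    rw [eval_aeval_fun, h7]
  rw [h6] at h5
  exact hbR h5

end EY
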