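import Pool.Agent.helper74.EY.EFormP
import Pool.Agent.helper35.EY.EF

/-!
# EY-EForm: the E-form; proved in `helper74/EY/EFormP.lean` (`eform_hom'`, `eform_sing'`, `eform_mul'`) and
`helper35/EY/EF.lean` (`eform_fin35`)
-/
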