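import Pool.Agent.helper81.EY.IDef

set_option autoImplicit false
set_option linter.unusedSectionVars false

/-!
# EY-IChg: change of coordinates for singular points, eigenvectors, multiplicities
-/

namespace EY

open MvPolynomial

section

variable {κ' : Type} [Fintype κ'] [DecidableEq κ'] {N : ℕ}
variable {S : Matrix (Option κ') (Option κ') ℂ} {a : Fin N → Option κ' → ℂ} {b : Option κ' → Fin N → ℂ}

theorem chg_ab_apply (h : Chg S a b) (y : Fin N → ℂ) :
    (fun i => ∑ k, a i k * (∑ j, b k j * y j) : Fin N → ℂ) = y := by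
  funext i
  simp only [Finset.mul_sum]
  rw [Finset.sum_comm]
  have h1 : ∀ j, ∑ k, a i k * (b k j * y j) = (if i = j then 1 else 0) * y j := by
    intro j
    rw [← h.ab i j, Finset.sum_mul]
    exact Finset.sum_congr rfl fun k _ => by ring
  simp only [h1]
  simp

theorem chg_ba_apply (h : Chg S a b) (x : Option κ' → ℂ) :
    (fun k => ∑ i, b k i * (∑ j, a i j * x j) : Option κ' → ℂ) = x := by
  funext k
  simp only [Finset.mul_sum]
  rw [Finset.sum_comm]
  have h1 : ∀ j, ∑ i, b k i * (a i j * x j) = (if k = j then 1 else 0) * x j := by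
    intro j
    rw [← h.ba k j, Finset.sum_mul]
    exact Finset.sum_congr rfl fun i _ => by ring
  simp only [h1]
  simp

/-- eigenvectors of `f' = f ∘ b` are eigenvectors of `f` -/
theorem chg_isEig (h : Chg S a b) (f : MvPolynomial (Option κ') ℂ) (y : Fin N → ℂ)
    (hy : IsEV (lsub b f) y) : IsEig f S (fun k => ∑ i, b k i * y i) := by
  intro j k
  have h1 := chg_minor h f j k
  have h2 : ∀ g ∈ eigIdeal (lsub b f), eval y g = 0 := by
    intro g hg
    unfold eigIdeal at hg
    induction hg using Submodule.span_induction with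
    | mem g hg =>
      obtain ⟨i, j, rfl⟩ := hg
      have := hy i j
      rw [map_sub, map_mul, map_mul, eval_X, eval_X, this, sub_self]
    | zero => simp
    | add u v _ _ hu hv => rw [map_add, hu, hv, add_zero]
    | smul c u _ hu => rw [smul_eq_mul, map_mul, hu, mul_zero]
  have h3 := h2 _ h1
  rw [eval_lsub] at h3
  exact h3

theorem chg_isEig' (h : Chg S a b) (f : MvPolynomial (Option κ') ℂ) (x : Option κ' → ℂ)
    (hx : IsEig f S x) : IsEV (lsub b f) (fun i => ∑ k, a i k * x k) := by
  intro i j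
  have h1 := congrArg (eval x) (chg_minor' h f i j)
  rw [eval_lsub, map_sum] at h1
  have h2 : ∑ k, eval x (∑ l, (C (b k i) * C (b l j)) * (sl S k * pderiv l f - sl S l * pderiv k f)) = 0 := by
    refine Finset.sum_eq_zero fun k _ => ?_
    rw [map_sum]
    refine Finset.sum_eq_zero fun l _ => ?_
    rw [map_mul, hx k l, mul_zero]
  rw [h2, map_sub, map_mul, map_mul, eval_X, eval_X, sub_eq_zero] at h1
  exact h1

theorem chg_finLines (h : Chg S a b) (f : MvPolynomial (Option κ') ℂ) (hf : FinLines (IsEig f S)) :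
    FinLines (IsEV (lsub b f)) := by
  obtain ⟨T, hT, hT'⟩ := hf
  refine ⟨(fun t => (fun i => ∑ k, a i k * t k : Fin N → ℂ)) '' T, hT.image _, ?_⟩
  intro y hy
  obtain ⟨t, ht, c, hc⟩ := hT' _ (chg_isEig h f y hy)
  refine ⟨_, ⟨t, ht, rfl⟩, c, ?_⟩
  rw [← chg_ab_apply h y]
  funext i
  simp only [Pi.smul_apply, smul_eq_mul, Finset.mul_sum]
  refine Finset.sum_congr rfl fun k _ => ?_
  have h1 : ∑ j, b k j * y j = c * t k := congrFun hc k
  rw [← Finset.mul_sum, h1]
  ring

theorem chg_finLines' (h : Chg S a b) (f : MvPolynomial (Option κ') ℂ) (hf : FinLines (IsEV (lsub b f))) :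
    FinLines (IsEig f S) := by
  obtain ⟨T, hT, hT'⟩ := hf
  refine ⟨(fun t => (fun k => ∑ i, b k i * t i : Option κ' → ℂ)) '' T, hT.image _, ?_⟩
  intro x hx
  obtain ⟨t, ht, c, hc⟩ := hT' _ (chg_isEig' h f x hx)
  refine ⟨_, ⟨t, ht, rfl⟩, c, ?_⟩
  rw [← chg_ba_apply h x]
  funext k
  simp only [Pi.smul_apply, smul_eq_mul, Finset.mul_sum]
  refine Finset.sum_congr rfl fun i _ => ?_
  have h1 : ∑ j, a i j * x j = c * t i := congrFun hc i
  rw [← Finset.mul_sum, h1]
  ring

theorem chg_isSing (h : Chg S a b) (f : MvPolynomial (Option κ') ℂ) (y : Fin N → ℂ) :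
    IsSing (lsub b f) y ↔ IsSing f (fun k => ∑ i, b k i * y i) := by
  constructor
  · intro hy k
    rw [← eval_lsub, chg_pderiv h f k, map_sum]
    exact Finset.sum_eq_zero fun i _ => by rw [map_mul, hy i, mul_zero]
  · intro hx i
    rw [pderiv_lsub b f i, map_sum]
    refine Finset.sum_eq_zero fun k _ => ?_
    rw [map_mul, eval_lsub, hx k, mul_zero]

theorem chg_mulAt (h : Chg S a b) (f : MvPolynomial (Option κ') ℂ) (w : Option κ')
    (hw : ∀ j, S w j = if j = none then 1 else 0) (p : κ' → ℂ)
    (hp : ∀ g ∈ affIdeal f S w, eval p g = 0) :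
    mulAt (chartIdeal (lsub b f) (b none)) (fun i => ∑ k, a i k * (fun o : Option κ' => o.elim 1 p) k) =
      mulAt (affIdeal f S w) p := by
  refine mulAt_congr (chartIdeal (lsub b f) (b none)) (affIdeal f S w) _ p (dehom.comp (lsub a)) ?_ ?_ ?_ hp
  · intro y
    refine ⟨psi b y, ?_⟩
    have h1 : (dehom.comp (lsub a)) (psi b y) = y := by
      have h2 : ((dehom.comp (lsub a)).comp (psi b)) = AlgHom.id ℂ (MvPolynomial κ' ℂ) := by
        apply MvPolynomial.algHom_ext
        intro k
        simp only [AlgHom.comp_apply, AlgHom.id_apply]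
        have h3 : psi b (X k) = lsub b (X (some k)) := aeval_X _ _
        rw [h3, lsub_comp b a h.ba, dehom_X_some]
      exact AlgHom.congr_fun h2 y
    rw [h1, sub_self]
    exact Ideal.zero_mem _
  · intro x
    exact dehom_lsub_mem_iff h f w hw x
  · intro x
    rw [AlgHom.comp_apply, eval_dehom, eval_lsub]

theorem eval_linForm' (l v : Fin N → ℂ) : eval v (linForm l) = ∑ i, l i * v i := by
  unfold linForm
  simp

theorem chg_lin (h : Chg S a b) (x : Option κ' → ℂ) : ∑ i, b none i * (∑ k, a i k * x k) = x none :=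
  congrFun (chg_ba_apply h x) none

theorem affIdeal_eval_zero (f : MvPolynomial (Option κ') ℂ) (w : Option κ') (p : κ' → ℂ)
    (hs : IsSing f (fun o : Option κ' => o.elim 1 p)) : ∀ g ∈ affIdeal f S w, eval p g = 0 := by
  intro g hg
  unfold affIdeal at hg
  induction hg using Submodule.span_induction with
  | mem g hg =>
    obtain ⟨j, rfl⟩ := hg
    rw [eval_dehom, map_sub, map_mul, hs j, hs w, mul_zero, sub_zero]
  | zero => simp
  | add u v _ _ hu hv => rw [map_add, hu, hv, add_zero]
  | smul c u _ hu => rw [smul_eq_mul, map_mul, hu, mul_zero]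

end

theorem chI_eq {N : ℕ} (f : MvPolynomial (Fin N) ℂ) (l : Fin N → ℂ) : chI f l = chartIdeal f l := rfl

/-- a form in the coordinates `u, w, x` with finite eigenscheme and the only singular point `e_u` gives `IK` -/
theorem ik_of_form {κ : Type} [Fintype κ] [DecidableEq κ] {q N m : ℕ} (hN : Fintype.card κ + 2 = N)
    (f : MvPolynomial (Option (Option κ)) ℂ) (hf : f.IsHomogeneous (q + 1))
    (hfin : FinLines (IsEig f (gram κ)))
    (hs : IsSing f (fun o : Option (Option κ) => o.elim 1 0))
    (hu : ∀ x : Option (Option κ) → ℂ, IsSing f x → ∀ v : Option κ, x (some v) = 0)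
    (hm : mulAt (affIdeal f (gram κ) (some none)) 0 = m) : IK q (Fin N) m := by
  obtain ⟨a, b, h⟩ := exists_chg (N := N) (by rw [Fintype.card_option, Fintype.card_option, ← hN])
    (gram κ) gram_symm gram_det
  set p₁ : Option (Option κ) → ℂ := fun o => o.elim 1 (0 : Option κ → ℂ) with hp₁
  set v : Fin N → ℂ := fun i => ∑ k, a i k * p₁ k with hv
  have hbv : (fun k => ∑ i, b k i * v i : Option (Option κ) → ℂ) = p₁ := chg_ba_apply h p₁
  refine ⟨lsub b f, lsub_isHomogeneous b hf, chg_finLines h f hfin, b none, {v}, ?_, ?_, ?_⟩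
  · intro s hsv
    rw [Finset.mem_singleton] at hsv
    subst hsv
    refine ⟨chg_lin h p₁, ?_⟩
    rw [chg_isSing h, hbv]
    exact hs
  · intro y _ hy
    refine ⟨v, Finset.mem_singleton_self _, (∑ i, b none i * y i), ?_⟩
    have h1 := hu _ ((chg_isSing h f y).mp hy)
    have h2 : ∀ o : Option κ, ∑ j, b (some o) j * y j = 0 := h1
    funext i
    have h3 : y i = ∑ k, a i k * ∑ j, b k j * y j := (congrFun (chg_ab_apply h y) i).symm
    have h4 : v i = a i none := by
      rw [hv]
      simp only []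
      rw [Fintype.sum_option]
      simp [hp₁]
    rw [Pi.smul_apply, smul_eq_mul, h4, h3, Fintype.sum_option]
    simp only [h2, mul_zero, Finset.sum_const_zero, add_zero]
    ring
  · rw [Finset.sum_singleton, chI_eq]
    have h1 := chg_mulAt h f (some none) gram_w (0 : Option κ → ℂ) (affIdeal_eval_zero f (some none) 0 hs)
    rw [← hm, ← h1]

end EY
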