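import Pool.Agent.helper81.EY.IChg
import Pool.Agent.helper81.EY.Ber

set_option autoImplicit false
set_option linter.unusedSectionVars false

/-!
# EY-IQof: from `IK` to the normal form `IQ` (Bertini and a Householder reflection)
-/

namespace EY

open MvPolynomial

/-- a vector `b` with `b.b ≠ 0` is, up to a factor, the column `i₀` of a symmetric orthogonal matrix -/
theorem exists_householder {N : ℕ} (b : Fin N → ℂ) (hb : ∑ i, b i ^ 2 ≠ 0) (i₀ : Fin N) :
    ∃ (c : ℂ) (H : Fin N → Fin N → ℂ), c ≠ 0 ∧ (∀ i j, H i j = H j i) ∧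
      (∀ i j, ∑ k, H i k * H k j = if i = j then 1 else 0) ∧ ∀ i, H i i₀ = c * b i := by
  obtain ⟨r, hr⟩ := IsAlgClosed.exists_pow_nat_eq (∑ i, b i ^ 2)⁻¹ (n := 2) (by norm_num)
  have hr0 : r ≠ 0 := by
    rintro rfl
    rw [zero_pow (by norm_num)] at hr
    exact (inv_ne_zero hb) hr.symm
  obtain ⟨c, hc, hc1⟩ : ∃ c : ℂ, c ^ 2 = (∑ i, b i ^ 2)⁻¹ ∧ c * b i₀ ≠ 1 := by
    by_cases h : r * b i₀ = 1
    · refine ⟨-r, by rw [neg_sq, hr], ?_⟩
      rw [neg_mul, h]
      norm_num
    · exact ⟨r, hr, h⟩
  have hc0 : c ≠ 0 := by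
    rintro rfl
    rw [zero_pow (by norm_num)] at hc
    exact (inv_ne_zero hb) hc.symm
  set v : Fin N → ℂ := fun i => c * b i - if i = i₀ then 1 else 0 with hv
  set D : ℂ := 1 - c * b i₀ with hD
  have hD0 : D ≠ 0 := sub_ne_zero.mpr (Ne.symm hc1)
  have hbb : ∑ i, (c * b i) ^ 2 = 1 := by
    simp only [mul_pow]
    rw [← Finset.mul_sum, hc, inv_mul_cancel₀ hb]
  have hvv : ∑ i, v i * v i = 2 * D := by
    have h1 : ∀ i, v i * v i = (c * b i) ^ 2 - 2 * (if i = i₀ then c * b i else 0) + (if i = i₀ then 1 else 0) := by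
      intro i
      simp only [hv]
      split_ifs <;> ring
    simp only [h1]
    rw [Finset.sum_add_distrib, Finset.sum_sub_distrib, hbb, ← Finset.mul_sum]
    simp
    rw [hD]
    ring
  refine ⟨c, fun i j => (if i = j then 1 else 0) - v i * v j / D, hc0, ?_, ?_, ?_⟩
  · intro i j
    simp only [eq_comm, mul_comm (v i)]
  · intro i j
    have h1 : ∀ k, ((if i = k then (1 : ℂ) else 0) - v i * v k / D) * ((if k = j then 1 else 0) - v k * v j / D) =
        (if i = k then (if k = j then 1 else 0) else 0) - (if i = k then v k * v j / D else 0)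
          - (if k = j then v i * v k / D else 0) + v i * v j / D ^ 2 * (v k * v k) := by
      intro k
      have h2 : D ^ 2 ≠ 0 := pow_ne_zero _ hD0
      split_ifs <;> field_simp <;> ring
    simp only [h1]
    rw [Finset.sum_add_distrib, Finset.sum_sub_distrib, Finset.sum_sub_distrib, ← Finset.mul_sum, hvv]
    simp only [Finset.sum_ite_eq, Finset.sum_ite_eq', Finset.mem_univ, if_true]
    field_simp
    ring
  · intro i
    have hvi : v i₀ = - D := by
      simp only [hv, if_true, hD]
      ring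
    simp only [hvi]
    rw [mul_neg, neg_div, mul_div_assoc, div_self hD0]
    simp only [hv]
    ring

/-- orthonormal coordinates `Option τ` in which `b.x` is a multiple of `x_none` -/
theorem exists_frame {τ : Type} [Fintype τ] [DecidableEq τ] {N : ℕ} (hN : Fintype.card τ + 1 = N)
    (b : Fin N → ℂ) (hb : ∑ i, b i ^ 2 ≠ 0) :
    ∃ (c : ℂ) (a : Fin N → Option τ → ℂ) (b' : Option τ → Fin N → ℂ), c ≠ 0 ∧
      Chg (1 : Matrix (Option τ) (Option τ) ℂ) a b' ∧ ∀ i, b' none i = c * b i := by
  have hcard : Fintype.card (Option τ) = Fintype.card (Fin N) := by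
    rw [Fintype.card_option, Fintype.card_fin, hN]
  let e : Option τ ≃ Fin N := Fintype.equivOfCardEq hcard
  obtain ⟨c, H, hc, hsym, hH, hcol⟩ := exists_householder b hb (e none)
  refine ⟨c, fun i o => H i (e o), fun o i => H (e o) i, hc, ⟨?_, ?_, ?_⟩, ?_⟩
  · intro i j
    rw [← hH i j]
    exact e.sum_comp fun k => H i k * H k j
  · intro k l
    rw [hH (e k) (e l)]
    by_cases h : k = l
    · rw [if_pos h, if_pos (by rw [h])]
    · rw [if_neg h, if_neg fun h' => h (e.injective h')]
  · intro j k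
    have h1 : ∑ i, H i (e j) * H i (e k) = ∑ i, H (e j) i * H i (e k) :=
      Finset.sum_congr rfl fun i _ => by rw [hsym i (e j)]
    rw [h1, hH (e j) (e k), Matrix.one_apply]
    by_cases h : j = k
    · rw [if_pos h, if_pos (by rw [h])]
    · rw [if_neg h, if_neg fun h' => h (e.injective h')]
  · intro i
    change H (e none) i = c * b i
    rw [hsym (e none) i, hcol i]

theorem isEig_one_iff {τ : Type} [Fintype τ] [DecidableEq τ] (f : MvPolynomial τ ℂ) (x : τ → ℂ) :
    IsEig f (1 : Matrix τ τ ℂ) x ↔ IsEV f x := by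
  have hsl : ∀ j, sl (1 : Matrix τ τ ℂ) j = X j := by
    intro j
    unfold sl
    rw [Finset.sum_eq_single j]
    · rw [Matrix.one_apply_eq, C_1, one_mul]
    · intro k _ hk
      rw [Matrix.one_apply_ne (Ne.symm hk), C_0, zero_mul]
    · intro h
      exact absurd (Finset.mem_univ j) h
  unfold IsEig IsEV
  simp only [hsl, map_sub, map_mul, eval_X, sub_eq_zero]

theorem IsSing.smul {κ : Type} [Fintype κ] {P : MvPolynomial κ ℂ} {d : ℕ} (hP : P.IsHomogeneous d)
    {v : κ → ℂ} (hv : IsSing P v) (c : ℂ) : IsSing P (c • v) := by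
  intro i
  rw [eval_smul_hom hP.pderiv, hv i, mul_zero]

theorem iq_of_ik {τ : Type} [Fintype τ] [DecidableEq τ] {q N M : ℕ} (hq : 1 ≤ q) (hN : Fintype.card τ + 1 = N)
    (h : IK q (Fin N) M) : IQ q τ M := by
  classical
  obtain ⟨P, hP, hfin, l, S, hS1, hS2, hS3⟩ := h
  have hl0 : ∀ s ∈ S, s ≠ 0 := by
    intro s hs h0
    have h1 := (hS1 s hs).1
    rw [h0] at h1
    simp at h1
  have hNpos : 0 < N := by omega
  have hG : (∑ i, X i ^ 2 : MvPolynomial (Fin N) ℂ) ≠ 0 := by
    intro h0
    have h1 := congrArg (eval (Pi.single (⟨0, hNpos⟩ : Fin N) (1 : ℂ))) h0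
    rw [map_sum, map_zero] at h1
    simp [Pi.single_apply] at h1
  obtain ⟨b, hbG, hbS, hbt⟩ := bertini (d := q + 1) (by omega) P hP S hl0 hS2 _ hG
  have hbb : ∑ i, b i ^ 2 ≠ 0 := by
    rw [map_sum] at hbG
    simpa using hbG
  obtain ⟨c, a, b', hc, hchg, hb'⟩ := exists_frame hN b hbb
  have hb's : ∀ s : Fin N → ℂ, ∑ i, b' none i * s i = c * ∑ i, b i * s i := by
    intro s
    rw [Finset.mul_sum]
    exact Finset.sum_congr rfl fun i _ => by rw [hb' i]; ring
  set P' := lsub a P with hP'
  have hPP : lsub b' P' = P := lsub_comp a b' hchg.ab P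
  have hhom : P'.IsHomogeneous (q + 1) := lsub_isHomogeneous a hP
  have hw : ∀ j : Option τ, (1 : Matrix (Option τ) (Option τ) ℂ) none j = if j = none then 1 else 0 := by
    intro j
    rw [Matrix.one_apply]
    simp only [eq_comm]
  set L : (Fin N → ℂ) → ℂ := fun s => ∑ i, b' none i * s i with hL
  have hL0 : ∀ s ∈ S, L s ≠ 0 := fun s hs => by
    rw [hL]; simp only []; rw [hb's s]; exact mul_ne_zero hc (hbS s hs)
  set z : (Fin N → ℂ) → (τ → ℂ) := fun s i => (L s)⁻¹ * ∑ j, b' (some i) j * s j with hz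
  -- the point `(1, z s)` is `(L s)⁻¹ • b' s`
  have hz1 : ∀ s, L s ≠ 0 → (fun o : Option τ => o.elim 1 (z s) : Option τ → ℂ) =
      (L s)⁻¹ • fun k => ∑ j, b' k j * s j := by
    intro s hs
    funext o
    rcases o with _ | i
    · rw [Pi.smul_apply, smul_eq_mul]
      exact (inv_mul_cancel₀ hs).symm
    · rw [Pi.smul_apply, smul_eq_mul]
      rfl
  have hsingz : ∀ s ∈ S, IsSing P' (fun o : Option τ => o.elim 1 (z s)) := by
    intro s hs
    rw [hz1 s (hL0 s hs)]
    refine IsSing.smul hhom ?_ _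
    rw [← chg_isSing hchg, hPP]
    exact (hS1 s hs).2
  -- `a (1, z s) = (L s)⁻¹ • s`
  have haz : ∀ s, L s ≠ 0 → (fun i => ∑ k, a i k * (fun o : Option τ => o.elim 1 (z s)) k : Fin N → ℂ) =
      fun i => s i / L s := by
    intro s hs
    rw [hz1 s hs]
    funext i
    have h1 : ∑ k, a i k * (∑ j, b' k j * s j) = s i := congrFun (chg_ab_apply hchg s) i
    change ∑ k, a i k * ((L s)⁻¹ • fun k => ∑ j, b' k j * s j) k = s i / L s
    rw [div_eq_inv_mul, ← h1, Finset.mul_sum]
    refine Finset.sum_congr rfl fun k _ => ?_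
    rw [Pi.smul_apply, smul_eq_mul]
    ring
  refine ⟨P', S.image z, hhom, ?_, ?_, ?_, ?_⟩
  · have h1 := chg_finLines' hchg P' (by rw [hPP]; exact hfin)
    exact h1.mono fun x hx => (isEig_one_iff P' x).mpr hx
  · intro v hv0 hv
    set y : Fin N → ℂ := fun i => ∑ k, a i k * v k with hy
    have hby : (fun k => ∑ i, b' k i * y i : Option τ → ℂ) = v := chg_ba_apply hchg v
    by_contra hne
    have hy0 : y ≠ 0 := by
      intro h0
      apply hne
      rw [← hby, h0]
      funext k
      simp
    have hbny : ∑ i, b i * y i = 0 := by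
      have h1 : ∑ i, b' none i * y i = v none := congrFun hby none
      rw [hv0, hb's y] at h1
      exact (mul_eq_zero.mp h1).resolve_left hc
    refine hbt y hy0 hbny (c * eval v (pderiv none P')) ?_
    intro i
    have h2 := pderiv_lsub b' P' i
    rw [hPP] at h2
    rw [h2, map_sum, Fintype.sum_option]
    simp only [map_mul, eval_lsub, hby, eval_C, hv, mul_zero, Finset.sum_const_zero, add_zero, hb' i]
    ring
  · intro z'
    rw [Finset.mem_image]
    constructor
    · rintro ⟨s, hs, rfl⟩
      exact hsingz s hs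
    · intro hz'
      set y : Fin N → ℂ := fun i => ∑ k, a i k * (fun o : Option τ => o.elim 1 z') k with hy
      have hby : (fun k => ∑ i, b' k i * y i : Option τ → ℂ) = fun o : Option τ => o.elim 1 z' :=
        chg_ba_apply hchg _
      have hysing : IsSing P y := by
        rw [← hPP, chg_isSing hchg, hby]
        exact hz'
      have hy1 : L y = 1 := congrFun hby none
      have hy0 : y ≠ 0 := by
        intro h0
        rw [h0] at hy1
        simp [hL] at hy1
      obtain ⟨s, hs, c', hc'⟩ := hS2 y hy0 hysing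
      refine ⟨s, hs, ?_⟩
      have hLs : c' * L s = 1 := by
        rw [← hy1, hc', hL]
        simp only [Pi.smul_apply, smul_eq_mul]
        rw [Finset.mul_sum]
        exact Finset.sum_congr rfl fun i _ => by ring
      funext i
      have h1 : ∑ j, b' (some i) j * y j = z' i := congrFun hby (some i)
      have hc'' : (L s)⁻¹ = c' := (eq_inv_of_mul_eq_one_left hLs).symm
      rw [← h1, hz]
      simp only []
      rw [hc'', Finset.mul_sum, hc']
      exact Finset.sum_congr rfl fun j _ => by rw [Pi.smul_apply, smul_eq_mul]; ring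
  · rw [Finset.sum_image]
    · rw [← hS3]
      refine Finset.sum_congr rfl fun s hs => ?_
      have h1 := chg_mulAt hchg P' none hw (z s) (affIdeal_eval_zero P' none (z s) (hsingz s hs))
      rw [hPP, haz s (hL0 s hs)] at h1
      rw [← h1, chI_eq]
      have h2 := mulAt_chartIdeal hP l (b' none) s (by rw [eval_linForm']; exact (hS1 s hs).1)
        (by rw [eval_linForm']; exact hL0 s hs)
      rw [h2, eval_linForm']
    · intro s hs s' hs' hzz
      have h1 := haz s (hL0 s hs)
      have h2 := haz s' (hL0 s' hs')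
      rw [hzz, h2] at h1
      have h3 : ∀ i, s' i / L s' = s i / L s := fun i => congrFun h1 i
      have h4 : L s' = L s := by
        have h5 : (∑ i, l i * s' i) / L s' = (∑ i, l i * s i) / L s := by
          rw [Finset.sum_div, Finset.sum_div]
          exact Finset.sum_congr rfl fun i _ => by rw [mul_div_assoc, h3 i, mul_div_assoc]
        rw [(hS1 s' hs').1, (hS1 s hs).1] at h5
        exact inv_injective (by simpa using h5)
      funext i
      have h5 := h3 i
      rw [h4] at h5
      exact ((div_left_inj' (hL0 s hs)).mp h5).symm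

end EY
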