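import Pool.Agent.helper81.EY.EStep
import Pool.Agent.helper46.U.Asm
import Pool.Agent.helper44.U.UOdd
import Pool.Agent.helper5.EY.Big

set_option autoImplicit false

/-!
# EY-QOdd: `UCrit q` and the E-step for odd `q`; all degrees for odd `q ≥ 7` up to M4
-/

namespace EY

theorem ucrit_odd81 {q : ℕ} (hq : 2 ≤ q) (ho : Odd q) : UCrit q := by
  intro K E _ h2
  exact u_crit hq (fun he => absurd he (Nat.not_even_iff_odd.mpr ho))
    (fun he => absurd he (Nat.not_even_iff_odd.mpr ho)) (fun ho => u_odd ho hq) K E h2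

theorem estep_odd81 {q : ℕ} (hq : 2 ≤ q) (ho : Odd q) (K m : ℕ) (hK : 1 ≤ K) (_hm : 1 ≤ m) (hm' : m ≤ DD q K) :
    Rz q (K + 2) ((q + 1) * q ^ K + m) :=
  estep_of hq (ucrit_odd81 hq ho) K m hK hm'

end EY
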