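import Pool.Agent.helper2.EY.SheetI

/-!
# EY-Sheet: the special sheet lemma `EY.special_sheet` is proved in `helper2/EY/SheetI.lean`
-/
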